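import Pool.Agent.H95.AD.TargetsU

/-!
# Board `adu_modules`, row CDB: the mollifier coefficients are bounded
-/

set_option autoImplicit false

namespace Pool.Agent.H18.AD

open Pool.Agent.H31.CN Pool.Agent.H95.AD

lemma cdb_chi (p : ℕ) (hp : p.Prime) (D : ℤ) : |(chi p D : ℝ)| ≤ p := by
  have h1 : (1 : ℝ) ≤ p := by exact_mod_cast hp.one_lt.le
  unfold chi
  by_cases h2 : p = 2
  · rw [if_pos h2]
    split_ifs <;> norm_num <;> exact hp.one_lt.le
  · rw [if_neg h2]
    have h3 : nrt p 1 0 D ≤ p := by
      unfold nrt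
      exact (Finset.card_filter_le _ _).trans (by rw [Finset.card_range])
    have h3r : ((nrt p 1 0 D : ℕ) : ℝ) ≤ p := by exact_mod_cast h3
    push_cast
    rw [abs_le]
    constructor
    · have : (0 : ℝ) ≤ ((nrt p 1 0 D : ℕ) : ℝ) := Nat.cast_nonneg _
      linarith
    · linarith

lemma cdb_an (N n : ℕ) (Δ : ℤ) : |an N n Δ| ≤ 2 ^ N.primeFactors.card := by
  unfold an
  rw [Finset.abs_prod]
  calc ∏ p ∈ N.primeFactors, |if p ∣ n then (-1 : ℝ) else 1 + (chi p Δ : ℝ) / p|
      ≤ ∏ _p ∈ N.primeFactors, (2 : ℝ) := by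
        refine Finset.prod_le_prod (fun p _ => abs_nonneg _) fun p hp => ?_
        have hpp := Nat.prime_of_mem_primeFactors hp
        have hp0 : (0 : ℝ) < p := by exact_mod_cast hpp.pos
        split_ifs
        · norm_num
        · refine (abs_add_le _ _).trans ?_
          rw [abs_one, abs_div, abs_of_pos hp0]
          have := (div_le_one hp0).2 (cdb_chi p hpp Δ)
          linarith
    _ = 2 ^ N.primeFactors.card := by rw [Finset.prod_const]

theorem pf_CDB : T_CDB := by
  intro P N _
  obtain ⟨C, hC⟩ := (isCompact_Icc (a := (0 : ℝ)) (b := 1)).exists_bound_of_continuousOn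
    P.continuous.continuousOn
  have hC0 : 0 ≤ C := (norm_nonneg _).trans (hC 0 ⟨le_rfl, zero_le_one⟩)
  refine ⟨2 ^ N.primeFactors.card * C + 1, by positivity, ?_⟩
  intro M Δ m hM
  have hcm : ∀ m : ℕ, |cm P M N m| ≤ C := by
    intro m
    unfold cm
    split_ifs with h
    · rcases Nat.eq_zero_or_pos m with rfl | hm
      · unfold mr
        rw [ArithmeticFunction.map_zero, Int.cast_zero, zero_mul, abs_zero]
        exact hC0
      · have hm0 : (0 : ℝ) < m := by exact_mod_cast hm
        have hm1 : (1 : ℝ) ≤ m := by exact_mod_cast hm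
        have hx : Real.log (M / m) / Real.log M ∈ Set.Icc (0 : ℝ) 1 := by
          have hl : 0 ≤ Real.log M := Real.log_nonneg hM
          have h1 : 0 ≤ Real.log (M / m) := Real.log_nonneg ((one_le_div₀ hm0).2 h.1)
          refine ⟨div_nonneg h1 hl, div_le_one_of_le₀ ?_ hl⟩
          exact Real.log_le_log (by positivity) (div_le_self (by linarith) hm1)
        have h1 := hC _ hx
        rw [Real.norm_eq_abs] at h1
        have h2 : |mr m| ≤ 1 := by
          unfold mr
          have := ArithmeticFunction.abs_moebius_le_one (n := m)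
          exact_mod_cast this
        rw [abs_mul]
        calc |mr m| * |P.eval (Real.log (M / m) / Real.log M)| ≤ 1 * C :=
              mul_le_mul h2 h1 (abs_nonneg _) zero_le_one
          _ = C := one_mul C
    · rw [abs_zero]
      exact hC0
  unfold CD
  rw [abs_mul]
  calc |an N (Nat.gcd m N) Δ| * |cm P M N (m / Nat.gcd m N)| ≤ 2 ^ N.primeFactors.card * C :=
        mul_le_mul (cdb_an _ _ _) (hcm _) (abs_nonneg _) (by positivity)
    _ ≤ _ := by linarith

end Pool.Agent.H18.AD
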