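import Pool.Agent.H95.AD.TargetsU

/-!
# Board `adu_modules`, row USM: absolute convergence of the unfolded sums
-/

set_option autoImplicit false

namespace Pool.Agent.H18.AD

open Pool.Agent.H31.CN Pool.Agent.H95.AD

theorem pf_USM (hVK : T_VK) : T_USM := by
  obtain ⟨C, hC, hV, -⟩ := hVK
  intro m D k hm hD
  have hm0 : (0 : ℝ) < m := by exact_mod_cast hm
  have hD0 : (0 : ℝ) < D := by exact_mod_cast hD
  have hmD : 0 < (m : ℝ) * Real.sqrt D := mul_pos hm0 (Real.sqrt_pos.2 hD0)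
  obtain ⟨c, hc⟩ : ∃ c, c = 3 / ((m : ℝ) * Real.sqrt D) := ⟨_, rfl⟩
  have hc0 : 0 < c := by rw [hc]; positivity
  have h1 : Summable fun n : ℕ => C * ((n : ℝ) ^ 0 * Real.exp (-c * n)) :=
    (Real.summable_pow_mul_exp_neg_nat_mul 0 hc0).mul_left C
  have h2 : Summable fun n : ℕ => (n : ℝ) ^ k * Real.exp (-c * n) :=
    Real.summable_pow_mul_exp_neg_nat_mul k hc0
  have h3 : Summable fun p : ℕ × ℕ => (C * ((p.1 : ℝ) ^ 0 * Real.exp (-c * p.1))) *
      ((p.2 : ℝ) ^ k * Real.exp (-c * p.2)) :=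
    h1.mul_of_nonneg h2 (fun n => by positivity) (fun n => by positivity)
  refine Summable.of_nonneg_of_le (fun p => by positivity) ?_ h3
  rintro ⟨e, A⟩
  dsimp only
  by_cases h0 : e = 0 ∨ A = 0
  · have h4 : (e : ℝ) ^ 2 * A = 0 := by
      rcases h0 with rfl | rfl <;> norm_num
    rw [h4, Real.sqrt_zero, div_zero, zero_mul]
    positivity
  · push Not at h0
    have he1 : (1 : ℝ) ≤ e := by exact_mod_cast Nat.one_le_iff_ne_zero.2 h0.1
    have hA1 : (1 : ℝ) ≤ A := by exact_mod_cast Nat.one_le_iff_ne_zero.2 h0.2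
    have he2 : (1 : ℝ) ≤ (e : ℝ) ^ 2 * A := by
      have : (1 : ℝ) ≤ (e : ℝ) ^ 2 := one_le_pow₀ he1
      nlinarith
    have he3 : ((e : ℝ) + A) / 2 ≤ (e : ℝ) ^ 2 * A := by nlinarith [mul_nonneg (sub_nonneg.2 he1) (sub_nonneg.2 hA1), mul_nonneg (mul_nonneg (by linarith : (0:ℝ) ≤ e) (by linarith : (0:ℝ) ≤ A)) (sub_nonneg.2 he1)]
    have hx : 0 < (e : ℝ) ^ 2 * A / ((m : ℝ) * Real.sqrt D) := by positivity
    have h5 := hV _ hx
    have h6 : -(6 * ((e : ℝ) ^ 2 * A / ((m : ℝ) * Real.sqrt D))) ≤ -c * e + -c * A := by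
      have h7 : c * (e + A) ≤ 6 * ((e : ℝ) ^ 2 * A / ((m : ℝ) * Real.sqrt D)) := by
        rw [hc, div_mul_eq_mul_div, ← mul_div_assoc]
        exact div_le_div_of_nonneg_right (by linarith) hmD.le
      linarith
    have h8 : |Vk ((e : ℝ) ^ 2 * A / ((m : ℝ) * Real.sqrt D))| ≤
        C * (Real.exp (-c * e) * Real.exp (-c * A)) := by
      refine h5.trans (mul_le_mul_of_nonneg_left ?_ hC.le)
      rw [← Real.exp_add]
      exact Real.exp_le_exp.2 h6
    have hs : 1 ≤ Real.sqrt ((e : ℝ) ^ 2 * A) := by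
      rw [Real.one_le_sqrt]
      exact he2
    calc |Vk ((e : ℝ) ^ 2 * A / ((m : ℝ) * Real.sqrt D))| / Real.sqrt ((e : ℝ) ^ 2 * A) * (A : ℝ) ^ k
        ≤ |Vk ((e : ℝ) ^ 2 * A / ((m : ℝ) * Real.sqrt D))| * (A : ℝ) ^ k :=
          mul_le_mul_of_nonneg_right (div_le_self (abs_nonneg _) hs) (by positivity)
      _ ≤ C * (Real.exp (-c * e) * Real.exp (-c * A)) * (A : ℝ) ^ k :=
          mul_le_mul_of_nonneg_right h8 (by positivity)
      _ = C * ((e : ℝ) ^ 0 * Real.exp (-c * e)) * ((A : ℝ) ^ k * Real.exp (-c * A)) := by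
          rw [pow_zero]; ring

end Pool.Agent.H18.AD
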